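import Mathlib
import Pool.Agent.Y91.JP.Dich

/-!
# UODD, abstract part: elements of small rank
-/

set_option linter.unusedSectionVars false

namespace Q182.UW

open Module LinearMap Pool.Agent.W548.Odd Pool.Agent.Y91.JP

variable {K : Type*} [Field K] [CharZero K] {V : Type*} [AddCommGroup V] [Module K V]
  [FiniteDimensional K V]

variable {G I : Submodule K (End K V)} {st : End K V →ₗ[K] End K V} (h : Setup G st)
  (hs : Scal G)

/-- the commutators of an ideal -/
def dv (I : Submodule K (End K V)) : Submodule K (End K V) :=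
  Submodule.span K {z | ∃ a ∈ I, ∃ b ∈ I, z = a * b - b * a}

include h in
theorem dv_idl (hI : IsIdl G I) : IsIdl G (dv I) := by
  have hle : dv I ≤ I := by
    unfold dv
    rw [Submodule.span_le]
    rintro _ ⟨a, ha, b, hb, rfl⟩
    exact hI.br a (hI.le ha) b hb
  refine ⟨hle.trans hI.le, fun y hy z hz => ?_⟩
  let L : Submodule K (End K V) := (dv I).comap (LinearMap.mulLeft K y - LinearMap.mulRight K y)
  have hL : dv I ≤ L := by
    conv_lhs => unfold dv
    rw [Submodule.span_le]
    rintro _ ⟨a, ha, b, hb, rfl⟩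
    change y * (a * b - b * a) - (a * b - b * a) * y ∈ dv I
    have e1 : y * (a * b - b * a) - (a * b - b * a) * y =
        ((y * a - a * y) * b - b * (y * a - a * y)) +
        (a * (y * b - b * y) - (y * b - b * y) * a) := by noncomm_ring
    rw [e1]
    exact (dv I).add_mem (Submodule.subset_span ⟨_, hI.br y hy a ha, b, hb, rfl⟩)
      (Submodule.subset_span ⟨a, ha, _, hI.br y hy b hb, rfl⟩)
  exact hL hz

include h hs in
/-- The trace of the product of an involution and an element which commutes with its ideal. -/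
theorem trace_zero {D c : End K V} (hD : D ∈ G) (hD2 : D * D = 1) (hD0 : D ≠ 0)
    (hc : ∀ z ∈ gn G D, c * z = z * c) : trace K V (D * c) = 0 := by
  have hI := gn_idl h hD
  have hJ := dv_idl h hI
  have hle : dv (gn G D) ≤ gn G D := by
    unfold dv
    rw [Submodule.span_le]
    rintro _ ⟨a, ha, b, hb, rfl⟩
    exact hI.br a (hI.le ha) b hb
  have hDJ : D ∈ dv (gn G D) := by
    rcases gn_min h hs hD hD2 hJ hle with h1 | h1
    · exfalso
      refine hD0 (abelian_zero h hs hD hD2 hI (fun x hx y hy => ?_) D mem_gn)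
      exact sub_eq_zero.1 (h1 _ (Submodule.subset_span ⟨x, hx, y, hy, rfl⟩))
    · exact h1 mem_gn
  have key : ∀ z ∈ dv (gn G D), trace K V (z * c) = 0 := by
    intro z hz
    unfold dv at hz
    induction hz using Submodule.span_induction with
    | mem z hz =>
      obtain ⟨a, ha, b, hb, rfl⟩ := hz
      have e1 : (a * b - b * a) * c = a * (b * c) - b * (a * c) := by noncomm_ring
      rw [e1, ← hc b hb, map_sub, ← mul_assoc a c b, LinearMap.trace_mul_comm K b (a * c), sub_self]
    | zero => rw [zero_mul, map_zero]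
    | add x y _ _ hx hy => rw [add_mul, map_add, hx, hy, add_zero]
    | smul t x _ hx => rw [smul_mul_assoc, map_smul, hx, smul_zero]
  exact key D hDJ

/-- Four times the rank of a product of projections. -/
theorem four_dvd {D D' : End K V} (hD : D * D = 1) (hD' : D' * D' = 1) (hc : D * D' = D' * D)
    (t1 : trace K V D = 0) (t2 : trace K V D' = 0) (t3 : trace K V (D * D') = 0) :
    4 ∣ finrank K V := by
  obtain ⟨p, hp⟩ : ∃ p, p = (4 : K)⁻¹ • ((1 + D) * (1 + D')) := ⟨_, rfl⟩
  have e1 : (1 + D) * (1 + D') * ((1 + D) * (1 + D')) = (4 : K) • ((1 + D) * (1 + D')) := by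
    have a1 : (1 + D') * (1 + D) = (1 + D) * (1 + D') := by
      rw [add_mul, add_mul, mul_add, mul_add, mul_add, mul_add, hc]
      noncomm_ring
    have a2 : (1 + D) * (1 + D) = (2 : K) • (1 + D) := by
      rw [add_mul, mul_add, mul_add, hD, two_smul]
      noncomm_ring
    have a3 : (1 + D') * (1 + D') = (2 : K) • (1 + D') := by
      rw [add_mul, mul_add, mul_add, hD', two_smul]
      noncomm_ring
    calc (1 + D) * (1 + D') * ((1 + D) * (1 + D')) =
        (1 + D) * ((1 + D') * (1 + D)) * (1 + D') := by noncomm_ring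
    _ = ((1 + D) * (1 + D)) * ((1 + D') * (1 + D')) := by rw [a1]; noncomm_ring
    _ = _ := by
      rw [a2, a3, smul_mul_smul_comm]
      norm_num
  have hpp : p * p = p := by
    rw [hp, smul_mul_smul_comm, e1, smul_smul]
    congr 1
    norm_num
  have ht : (4 : K) * trace K V p = finrank K V := by
    have a1 : (1 + D) * (1 + D') = 1 + D' + D + D * D' := by noncomm_ring
    rw [hp, map_smul, a1, map_add, map_add, map_add, t1, t2, t3, LinearMap.trace_one, smul_eq_mul]
    ring
  rw [trace_idem hpp] at ht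
  exact ⟨rk p, by exact_mod_cast ht.symm⟩

/-- The rank of the eigenspaces. -/
theorem rk_half {D : End K V} (hD : D * D = 1) (t1 : trace K V D = 0) :
    2 * rk (1 + D) = finrank K V := by
  obtain ⟨p, hp⟩ : ∃ p, p = (2 : K)⁻¹ • (1 + D) := ⟨_, rfl⟩
  have hpp : p * p = p := by
    have a2 : (1 + D) * (1 + D) = (2 : K) • (1 + D) := by
      rw [add_mul, mul_add, mul_add, hD, two_smul]
      noncomm_ring
    rw [hp, smul_mul_smul_comm, a2, smul_smul]
    congr 1
    norm_num
  have ht : (2 : K) * trace K V p = finrank K V := by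
    rw [hp, map_smul, map_add, t1, LinearMap.trace_one, smul_eq_mul]
    ring
  rw [trace_idem hpp, hp, rk_smul (by norm_num)] at ht
  exact_mod_cast ht

theorem range_eq {D : End K V} (hD : D * D = 1) (v : V) :
    v ∈ LinearMap.range (1 + D) ↔ D v = v := by
  constructor
  · rintro ⟨w, rfl⟩
    rw [LinearMap.add_apply, Module.End.one_apply, map_add]
    have : D (D w) = w := LinearMap.congr_fun hD w
    rw [this, add_comm]
  · intro hv
    refine ⟨(2 : K)⁻¹ • v, ?_⟩
    rw [map_smul, LinearMap.add_apply, Module.End.one_apply, hv, ← two_smul K v, smul_smul]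
    norm_num

/-- The rank of an element of the positive part is at most half of the dimension. -/
theorem rk_le {D x : End K V} (hD : D * D = 1) (t1 : trace K V D = 0) (hx : D * x = x) :
    2 * rk x ≤ finrank K V := by
  rw [← rk_half hD t1]
  have h1 : LinearMap.range x ≤ LinearMap.range (1 + D) := by
    rintro _ ⟨w, rfl⟩
    rw [range_eq hD]
    exact LinearMap.congr_fun hx w
  have h2 := Submodule.finrank_mono h1
  unfold rk
  omega

/-- A kernel vector outside of the eigenspace makes the rank smaller. -/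
theorem rk_lt {D x : End K V} (hD : D * D = 1) (t1 : trace K V D = 0) (hx : x * D = -x) {v : V}
    (hv : x v = 0) (hvD : D v ≠ v) : 2 * rk x < finrank K V := by
  have h1 : LinearMap.range (1 + D) ≤ LinearMap.ker x := by
    intro w hw
    rw [range_eq hD] at hw
    rw [LinearMap.mem_ker]
    have h2 : x (D w) = -(x w) := LinearMap.congr_fun hx w
    rw [hw] at h2
    have h3 : (2 : K) • x w = 0 := by
      rw [two_smul]
      nth_rewrite 1 [h2]
      exact neg_add_cancel _
    exact (smul_eq_zero.1 h3).resolve_left two_ne_zero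
  have h2 : LinearMap.range (1 + D) < LinearMap.ker x := by
    refine lt_of_le_of_ne h1 fun h3 => hvD ?_
    rw [← range_eq hD, h3, LinearMap.mem_ker]
    exact hv
  have h3 := Submodule.finrank_lt_finrank_of_lt h2
  have h4 := LinearMap.finrank_range_add_finrank_ker x
  have h5 := rk_half hD t1
  unfold rk at h5 ⊢
  omega

include h in
/-- The pencil. -/
theorem pencil [IsAlgClosed K] {D x y : End K V} (hD : D ∈ G) (hD2 : D * D = 1)
    (t1 : trace K V D = 0) (hx : x ∈ Kp G D) (hx0 : x ≠ 0) (hy : y ∈ Kp G D)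
    (hrk : finrank K V ≤ 2 * rk x) : ∃ t : K, 2 * rk (y - t • x) < finrank K V := by
  obtain ⟨f, hf, h1, h2, h3, h4⟩ := h.partner hD hD2 hx.1 hx.2.1 hx.2.2
  -- `x * f` is the projection to the positive eigenspace
  have h5 : LinearMap.range x = LinearMap.range (1 + D) := by
    refine Submodule.eq_of_le_of_finrank_le ?_ ?_
    · rintro _ ⟨w, rfl⟩
      rw [range_eq hD2]
      exact LinearMap.congr_fun hx.2.1 w
    · have h6 := rk_half hD2 t1
      unfold rk at h6 hrk
      omega
  have h6 : ∀ w, D w = w → x (f w) = w := by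
    intro w hw
    rw [← range_eq hD2, ← h5] at hw
    obtain ⟨u, rfl⟩ := hw
    exact LinearMap.congr_fun h3 u
  let N : Submodule K V := LinearMap.range f
  have hN : ∀ w ∈ N, (f * y) w ∈ N := fun w _ => ⟨y w, rfl⟩
  have hNn : Nontrivial N := by
    obtain ⟨v, hv⟩ : ∃ v, x v ≠ 0 := by
      by_contra hcon
      push Not at hcon
      exact hx0 (LinearMap.ext hcon)
    refine ⟨⟨⟨f (x v), ⟨x v, rfl⟩⟩, 0, fun h0 => hv ?_⟩⟩
    have h7 : f (x v) = 0 := congrArg Subtype.val h0
    have h8 : x (f (x v)) = x v := LinearMap.congr_fun h3 v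
    rw [← h8, h7, map_zero]
  obtain ⟨t, ht⟩ := Module.End.exists_eigenvalue (LinearMap.restrict (f * y) hN)
  obtain ⟨v, hv⟩ := ht.exists_hasEigenvector
  have hv1 : f (y v.1) = t • v.1 := congrArg Subtype.val hv.apply_eq_smul
  have hv0 : v.1 ≠ 0 := fun h0 => hv.2 (Subtype.ext h0)
  have hDv : D v.1 = -v.1 := by
    obtain ⟨w, hw⟩ := v.2
    rw [← hw]
    exact LinearMap.congr_fun h1 w
  refine ⟨t, rk_lt hD2 t1 (v := v.1) ?_ ?_ ?_⟩
  · rw [sub_mul, smul_mul_assoc, hx.2.2, hy.2.2, smul_neg]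
    abel
  · have h7 : x (f (y v.1)) = y v.1 := h6 _ (LinearMap.congr_fun hy.2.1 v.1)
    rw [LinearMap.sub_apply, LinearMap.smul_apply, ← h7, hv1, map_smul, sub_self]
  · rw [hDv]
    intro h7
    apply hv0
    have h8 : (2 : K) • v.1 = 0 := by
      rw [two_smul]
      nth_rewrite 1 [← h7]
      exact neg_add_cancel _
    exact (smul_eq_zero.1 h8).resolve_left two_ne_zero

include h hs in
/-- The positive part is not zero. -/
theorem exists_kp {D : End K V} (hD : D ∈ G) (hD2 : D * D = 1) (hD0 : D ≠ 0) :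
    ∃ x ∈ Kp G D, x ≠ 0 := by
  by_contra hcon
  push Not at hcon
  apply hD0
  refine central_zero h hs hD hD2 hD fun z hz => ?_
  have e1 : (1 + D) * z * (1 - D) = 0 := hcon _ ⟨h.idl.up hD hD2 hz, up_left hD2 z, up_right hD2 z⟩
  have e2 : (1 - D) * z * (1 + D) = 0 := by
    obtain ⟨u, hu⟩ : ∃ u, u = (1 - D) * z * (1 + D) := ⟨_, rfl⟩
    rw [← hu]
    have hu1 : D * u = -u := by rw [hu]; exact dn_left hD2 z
    have hu2 : u * D = u := by rw [hu]; exact dn_right hD2 z
    have hu3 : u ∈ G := by rw [hu]; exact h.idl.dn hD hD2 hz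
    obtain ⟨f, hf, h1, h2, h3, h4⟩ := h.partner (D := -D) (e := u) (G.neg_mem hD)
      (by rw [neg_mul_neg, hD2]) hu3 (by rw [neg_mul, hu1, neg_neg]) (by rw [mul_neg, hu2])
    have h5 : f = 0 := by
      refine hcon f ⟨hf, ?_, ?_⟩
      · rw [neg_mul, neg_inj] at h1
        exact h1
      · rw [mul_neg] at h2
        exact neg_eq_iff_eq_neg.1 h2
    rw [← h3, h5, mul_zero, zero_mul]
  exact comm_of_parts e1 e2

include h hs in
/-- **Elements of rank less than half of the dimension.** -/
theorem exists_small [IsAlgClosed K] {D : End K V} (hD : D ∈ G) (hD2 : D * D = 1) (hD0 : D ≠ 0)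
    (t1 : trace K V D = 0) (hgn : G ≤ gn G D) :
    ∃ x ∈ G, x * x = 0 ∧ x ≠ 0 ∧ (2 * rk x < finrank K V ∨
      (finrank K V ≤ 2 ∧ 2 * rk x ≤ finrank K V)) := by
  have hnD : -D ∈ G := G.neg_mem hD
  have hnD2 : -D * -D = 1 := by rw [neg_mul_neg, hD2]
  have hnt : trace K V (-D) = 0 := by rw [map_neg, t1, neg_zero]
  obtain ⟨x, hx, hx0⟩ := exists_kp h hs hD hD2 hD0
  obtain ⟨y, hy, hy0⟩ := exists_kp h hs hnD hnD2 (neg_ne_zero.2 hD0)
  by_cases h1 : ∀ z ∈ Kp G D, ∃ t : K, z = t • x
  swap
  · push Not at h1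
    obtain ⟨z, hz, hzx⟩ := h1
    by_cases h2 : finrank K V ≤ 2 * rk x
    · obtain ⟨t, ht⟩ := pencil h hD hD2 t1 hx hx0 hz h2
      have h3 : z - t • x ∈ Kp G D := Submodule.sub_mem _ hz (Submodule.smul_mem _ _ hx)
      exact ⟨z - t • x, h3.1, kp_zero h3 h3, sub_ne_zero.2 (hzx t), Or.inl ht⟩
    · exact ⟨x, hx.1, kp_zero hx hx, hx0, Or.inl (not_le.1 h2)⟩
  by_cases h2 : ∀ z ∈ Kp G (-D), ∃ t : K, z = t • y
  swap
  · push Not at h2
    obtain ⟨z, hz, hzy⟩ := h2
    by_cases h2 : finrank K V ≤ 2 * rk y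
    · obtain ⟨t, ht⟩ := pencil h hnD hnD2 hnt hy hy0 hz h2
      have h3 : z - t • y ∈ Kp G (-D) := Submodule.sub_mem _ hz (Submodule.smul_mem _ _ hy)
      exact ⟨z - t • y, h3.1, kp_zero h3 h3, sub_ne_zero.2 (hzy t), Or.inl ht⟩
    · exact ⟨y, hy.1, kp_zero hy hy, hy0, Or.inl (not_le.1 h2)⟩
  -- one dimensional parts
  let M : Submodule K V := LinearMap.range (1 + D)
  have hM : ∀ w ∈ M, (x * y) w ∈ M := by
    intro w _
    rw [range_eq hD2]
    exact LinearMap.congr_fun hx.2.1 (y w)
  have hMn : Nontrivial M := by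
    obtain ⟨v, hv⟩ : ∃ v, x v ≠ 0 := by
      by_contra hcon
      push Not at hcon
      exact hx0 (LinearMap.ext hcon)
    refine ⟨⟨⟨x v, (range_eq hD2 _).2 (LinearMap.congr_fun hx.2.1 v)⟩, 0,
      fun h0 => hv (congrArg Subtype.val h0)⟩⟩
  obtain ⟨t, ht⟩ := Module.End.exists_eigenvalue (LinearMap.restrict (x * y) hM)
  obtain ⟨v, hv⟩ := ht.exists_hasEigenvector
  have hv1 : x (y v.1) = t • v.1 := congrArg Subtype.val hv.apply_eq_smul
  have hv0 : v.1 ≠ 0 := fun h0 => hv.2 (Subtype.ext h0)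
  have hDv : D v.1 = v.1 := (range_eq hD2 _).1 v.2
  have h3 := irr_plus h hs hD hD2 hgn hx hx0 (W := Submodule.span K {v.1}) (by
    intro w hw
    obtain ⟨a, rfl⟩ := Submodule.mem_span_singleton.1 hw
    rw [map_smul, hDv]) (by
    intro x' hx' y' hy' w hw
    obtain ⟨a, rfl⟩ := Submodule.mem_span_singleton.1 hw
    obtain ⟨b, rfl⟩ := h1 x' hx'
    obtain ⟨c, rfl⟩ := h2 y' hy'
    refine Submodule.mem_span_singleton.2 ⟨b * c * a * t, ?_⟩
    rw [LinearMap.smul_apply, LinearMap.smul_apply, map_smul, map_smul, map_smul, hv1]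
    simp only [smul_smul, mul_assoc])
  rcases h3 with h3 | h3
  · exfalso
    exact hv0 (by
      have h4 := Submodule.mem_span_singleton_self (R := K) v.1
      rw [h3] at h4
      exact h4)
  · refine ⟨x, hx.1, kp_zero hx hx, hx0, Or.inr ⟨?_, rk_le hD2 t1 hx.2.1⟩⟩
    rw [← rk_half hD2 t1]
    have h4 : LinearMap.range (1 + D) ≤ Submodule.span K {v.1} := fun w hw =>
      h3 w ((range_eq hD2 w).1 hw)
    have h5 := Submodule.finrank_mono h4
    rw [finrank_span_singleton hv0] at h5
    unfold rk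
    omega

end Q182.UW
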