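import Mathlib
import Pool.Agent.Q180.UW.StmL
import Pool.Agent.Y91.JP.Fam5
import Pool.Agent.Q182.UW.OddA

/-!
# UODD
-/

set_option linter.unusedSectionVars false

namespace Q182.UW

open Matrix Module Pool.Agent.W437.HC Pool.Agent.W437.HD Pool.Agent.H204R3.CM
  Pool.Agent.H194R3.CM Pool.Agent.W548.Odd Pool.Agent.W437.HR Pool.Agent.TH125 Pool.Agent.Y91.JP

/-- the elements of the Lie algebra have trace zero -/
theorem tr_zero {B : Type*} [Fintype B] [DecidableEq B] {D : Set (Matrix B B ℂ)}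
    {Om S Si : Matrix B B ℂ} (H : Herm D Om S Si) {y : End ℂ (B → ℂ)} (hy : y ∈ GG (LA D)) :
    LinearMap.trace ℂ (B → ℂ) y = 0 := by
  have h1 := trSt H.Om2 y
  rw [H.setup.skew y hy, map_neg] at h1
  have h2 : (2 : ℂ) * LinearMap.trace ℂ (B → ℂ) y = 0 := by
    rw [two_mul]
    nth_rewrite 1 [← h1]
    exact neg_add_cancel _
  exact (mul_eq_zero.1 h2).resolve_left two_ne_zero

/-- The Hodge operator generates the Lie algebra as an ideal. -/
theorem gn_top {B : Type*} [Fintype B] [DecidableEq B] {d Om S Si : Matrix B B ℂ}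
    (H : Herm {d} Om S Si)
    (hs : ∀ c, InCm {d} c → ∃ s : ℂ, c = s • (1 : Matrix B B ℂ)) (h4 : ¬ 4 ∣ Fintype.card B) :
    GG (LA {d}) ≤ gn (GG (LA {d})) (ph B d) := by
  classical
  obtain ⟨G, hG⟩ : ∃ G, G = GG (LA ({d} : Set (Matrix B B ℂ))) := ⟨_, rfl⟩
  have h := H.setup
  have hsc := scal_of hs
  have htr : ∀ y ∈ G, LinearMap.trace ℂ (B → ℂ) y = 0 := by
    intro y hy
    rw [hG] at hy
    exact tr_zero H hy
  rw [← hG] at h hsc ⊢
  have hmem : ∀ {A : Matrix B B ℂ}, ph B A ∈ G ↔ A ∈ LA {d} := by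
    intro A
    rw [hG]
    exact mem_GG
  have hdd : d ∈ ({d} : Set (Matrix B B ℂ)) := Set.mem_singleton d
  have hsq : ∀ σ : ℂ ≃+* ℂ, d.map σ * d.map σ = 1 := by
    intro σ
    have e1 : (d * d).map (σ : ℂ →+* ℂ) = d.map (σ : ℂ →+* ℂ) * d.map (σ : ℂ →+* ℂ) :=
      Matrix.map_mul
    rw [H.DD d hdd] at e1
    have e2 : (1 : Matrix B B ℂ).map (σ : ℂ →+* ℂ) = 1 := Matrix.map_one _ (map_zero _) (map_one _)
    rw [e2] at e1
    exact e1.symm
  have hmemσ : ∀ σ : ℂ ≃+* ℂ, d.map σ ∈ LA {d} := fun σ =>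
    LA_aut (σ : ℂ →+* ℂ) (LA_self hdd)
  have hdG : ph B d ∈ G := hmem.2 (LA_self hdd)
  have hd2 : ph B d * ph B d = 1 := by rw [← map_mul, H.DD d hdd, map_one]
  have hfr : finrank ℂ (B → ℂ) = Fintype.card B := finrank_fintype_fun_eq_card ℂ
  obtain ⟨I, hI'⟩ : ∃ I, I = gn G (ph B d) := ⟨_, rfl⟩
  have hI : IsIdl G I := by rw [hI']; exact gn_idl h hdG
  by_contra hgn
  rw [← hI'] at hgn
  have hBne : Nonempty B := by
    by_contra hcon
    apply h4
    rw [Fintype.card_eq_zero_iff.2 (not_nonempty_iff.1 hcon)]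
    exact dvd_zero 4
  have hd0 : ph B d ≠ 0 := by
    intro h0
    rw [h0, mul_zero] at hd2
    exact zero_ne_one hd2
  obtain ⟨τ, hτ⟩ : ∃ τ : ℂ ≃+* ℂ, ph B (d.map τ) ∉ I := by
    by_contra hcon
    push Not at hcon
    apply hgn
    have h1 : LA {d} ≤ I.comap (ph B).toLinearMap := by
      refine LA_le_of_conj (fun d' hd' τ => ?_) ?_
      · rw [Set.mem_singleton_iff.1 hd']
        exact hcon τ
      · intro y hy z hz
        change ph B (y * z - z * y) ∈ I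
        rw [map_sub, map_mul, map_mul]
        exact hI.br _ (hI.le hy) _ hz
    intro y hy
    obtain ⟨A, hA, rfl⟩ := exists_GG (hG ▸ hy)
    exact h1 hA
  have hτ2 : ph B (d.map τ) * ph B (d.map τ) = 1 := by rw [← map_mul, hsq τ, map_one]
  have hc := (invol_dich h hsc hI (hmem.2 (hmemσ τ)) hτ2).resolve_left hτ
  have hcz : ∀ z ∈ gn G (ph B d), ph B (d.map τ) * z = z * ph B (d.map τ) := by
    rw [← hI']
    exact hc.2
  have h5 := four_dvd hd2 hτ2 (hcz _ mem_gn).symm (htr _ hdG) (htr _ hc.1)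
    (trace_zero h hsc hdG hd2 hd0 hcz)
  rw [hfr] at h5
  exact h4 h5

theorem four_dvd_centralBinom {j : ℕ} (hj : 1 ≤ j) : 4 ∣ (2 * j + 1).centralBinom := by
  have h1 := Nat.succ_mul_centralBinom_succ (2 * j)
  have h2 : 2 ∣ (2 * j).centralBinom := Nat.two_dvd_centralBinom_of_one_le (by omega)
  obtain ⟨m, hm⟩ := h2
  have h3 : (2 * j + 1) * (2 * j + 1).centralBinom = 4 * ((2 * (2 * j) + 1) * m) := by
    rw [h1, hm]
    ring
  have h4 : Nat.Coprime 4 (2 * j + 1) := by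
    have h5 : Nat.Coprime 2 (2 * j + 1) := by
      rw [Nat.coprime_two_left]
      exact ⟨j, rfl⟩
    exact Nat.Coprime.pow_left 2 h5
  exact h4.dvd_of_dvd_mul_left ⟨_, h3⟩

/-- Scalar endomorphisms: the variety is simple. -/
theorem simple_of_scal {g : ℕ} {Z : Matrix (Fin g) (Fin g) ℂ} (hZt : Zᵀ = Z)
    (hpos : (imM Z).PosDef)
    (hE : ∀ M : Matrix (Fin g ⊕ Fin g) (Fin g ⊕ Fin g) ℚ,
      Pool.Agent.W437.HP.cK ℂ M * DZ Z = DZ Z * Pool.Agent.W437.HP.cK ℂ M →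
      ∃ a : ℚ, M = a • (1 : Matrix (Fin g ⊕ Fin g) (Fin g ⊕ Fin g) ℚ)) : IsSimpleAV Z := by
  intro W hWs
  have hY : IsUnit (imM Z).det := hpos.isUnit.map Matrix.detMonoidHom
  rw [stable_iff hY] at hWs
  obtain ⟨M, hM1, hM2, hM3⟩ := exists_projector hZt hpos W hWs
  obtain ⟨q, hq⟩ := hE M hM3
  by_cases h0 : W = ⊥
  · exact Or.inl h0
  right
  obtain ⟨v, hv, hv0⟩ := Submodule.exists_mem_ne_zero_of_ne_bot h0
  have h1 := hM2 v hv
  rw [hq, smul_mulVec, one_mulVec] at h1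
  have h2 : q = 1 := by
    have h3 : (q - 1) • v = 0 := by rw [sub_smul, one_smul, h1, sub_self]
    exact sub_eq_zero.1 ((smul_eq_zero.1 h3).resolve_right hv0)
  rw [Submodule.eq_top_iff']
  intro w
  have h3 := hM1 w
  rw [hq, h2, one_smul, one_mulVec] at h3
  exact h3

theorem odd : Pool.Agent.Q180.UW.S_odd := by
  intro g Z hZt hpos hg hE
  have hY : IsUnit (imM Z).det := hpos.isUnit.map Matrix.detMonoidHom
  have hs : IsSimpleAV Z := simple_of_scal hZt hpos hE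
  have hW : IsPer ({Z} : Set (Matrix (Fin g) (Fin g) ℂ)) := by
    rintro Z' hZ'
    rw [Set.mem_singleton_iff.1 hZ']
    exact ⟨hZt, hpos⟩
  obtain ⟨S, Si, H⟩ := hermZ hW (Set.mem_singleton Z)
  rw [Set.image_singleton] at H
  have hsc : ∀ c, InCm {DZ Z} c →
      ∃ s : ℂ, c = s • (1 : Matrix (Fin g ⊕ Fin g) (Fin g ⊕ Fin g) ℂ) := by
    refine Cm_induction ?_ ?_ ?_ ?_
    · intro u hu
      obtain ⟨q, hq⟩ := hE u (hu _ (LA_self (Set.mem_singleton _)))
      refine ⟨(q : ℂ), ?_⟩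
      rw [hq]
      ext i j
      by_cases hij : i = j
      · subst hij
        simp [Pool.Agent.W548.Odd.qm]
      · simp [Pool.Agent.W548.Odd.qm, hij]
    · exact ⟨0, by rw [zero_smul]⟩
    · rintro X Y ⟨s, rfl⟩ ⟨t, rfl⟩
      exact ⟨s + t, by rw [add_smul]⟩
    · rintro c X ⟨s, rfl⟩
      exact ⟨c * s, by rw [mul_smul]⟩
  have hcard : Fintype.card (Fin g ⊕ Fin g) = 2 * g := by
    rw [Fintype.card_sum, Fintype.card_fin]
    omega
  obtain ⟨m, hm⟩ := hg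
  have h4 : ¬ 4 ∣ Fintype.card (Fin g ⊕ Fin g) := by
    rw [hcard]
    omega
  have hgn := gn_top H hsc h4
  have hfr : finrank ℂ (Fin g ⊕ Fin g → ℂ) = 2 * g := by
    rw [finrank_fintype_fun_eq_card, hcard]
  have hdG : ph _ (DZ Z) ∈ GG (LA {DZ Z}) := mem_GG.2 (LA_self (Set.mem_singleton _))
  have hd2 : ph _ (DZ Z) * ph _ (DZ Z) = 1 := by
    rw [← map_mul, H.DD _ (Set.mem_singleton _), map_one]
  have hBne : Nonempty (Fin g ⊕ Fin g) := by
    rw [← Fintype.card_pos_iff]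
    omega
  have hd0 : ph _ (DZ Z) ≠ 0 := by
    intro h0
    rw [h0, mul_zero] at hd2
    exact zero_ne_one hd2
  obtain ⟨x, hx, hx2, hx0, hr⟩ := exists_small H.setup (scal_of hsc) hdG hd2 hd0
    (tr_zero H hdG) hgn
  obtain ⟨X, hX, rfl⟩ := exists_GG hx
  have hX2 : X * X = 0 := (ph _).injective (by rw [map_mul, hx2, map_zero])
  have hX0 : X ≠ 0 := by
    rintro rfl
    exact hx0 (map_zero _)
  have hVG : LA {DZ Z} ≤ lieM (DZ Z) ℂ := by
    refine LA_le_lieM ?_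
    intro d' hd'
    rw [Set.mem_singleton_iff.1 hd']
    exact D_mem (DZ Z)
  obtain ⟨e, he, he1⟩ : ∃ e ∈ LA {DZ Z}, e.rank = 1 := by
    rw [rk_ph, hfr] at hr
    have hXpos : X.rank ≠ 0 := by
      rw [← rk_ph]
      exact fun h0 => hx0 (rk_eq_zero h0)
    by_cases h1 : X.rank = 1
    · exact ⟨X, hX, h1⟩
    refine exists_rank_one_of_sq H hsc (Set.mem_singleton _) hgn hX hX2 hX0 ?_ ?_
      (Or.inl fun j hj hc => ?_)
    · rw [hcard]
      omega
    · rw [hcard]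
      omega
    · exfalso
      have h5 := four_dvd_centralBinom hj
      rw [← hc] at h5
      exact h4 h5
  obtain ⟨v, hv, h3⟩ := sq_of_rank_one hZt (hVG he) he1
  exact hasPcs_of_top (Om_transpose ℂ) (Om_unit ℂ) (sp_C hZt)
    (UU_eq_top hZt hY hs ⟨v, good_of_sq_gen hZt hpos hv h3⟩)

end Q182.UW
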